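import Mathlib
import Pool.Agent.Q148.CAPath

/-!
# A non-transitive tournament beats all transitive ones (MP_665821_co)

A 4-edge-coloured tournament on ten vertices which contains a directed triangle and whose longest
colour-avoiding directed path has 6 vertices, while every 4-edge-colouring of the transitive
tournament on ten vertices has a colour-avoiding directed path with at least 7 vertices.
-/

namespace Pool.Agent.Results.MP_665821_co.NonTransitiveBetter

/-- A tournament on the vertex set `Fin N`: an orientation of the complete graph. -/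
structure Tournament (N : ℕ) where
  /-- `adj a b`: the edge between `a` and `b` is directed from `a` to `b`. -/
  adj : Fin N → Fin N → Prop
  irrefl : ∀ a, ¬ adj a a
  total : ∀ a b, a ≠ b → adj a b ∨ adj b a
  asymm : ∀ a b, adj a b → ¬ adj b a

/-- The transitive tournament: `a → b` exactly when `a < b`. -/
def transitive (N : ℕ) : Tournament N where
  adj a b := a < b
  irrefl a := lt_irrefl a
  total _ _ h := lt_or_gt_of_ne h
  asymm _ _ h := not_lt.mpr h.le

/-- The tournament is isomorphic to the transitive one. -/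
def Tournament.IsTransitive {N : ℕ} (T : Tournament N) : Prop :=
  ∃ σ : Fin N ≃ Fin N, ∀ a b, T.adj a b ↔ σ a < σ b

/-- A `q`-edge-colouring: `c a b` is the colour of the edge directed from `a` to `b` (the other
values are never used). -/
abbrev Colouring (N q : ℕ) := Fin N → Fin N → Fin q

/-- `p` is a colour-avoiding directed path: a list of distinct vertices, consecutive ones joined by
edges of the tournament in this direction, such that some colour `i` is not used by them. -/
def IsAvoidingPath {N q : ℕ} (T : Tournament N) (c : Colouring N q) (p : List (Fin N)) : Prop :=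
  p.Nodup ∧ p.IsChain T.adj ∧ ∃ i, p.IsChain (fun a b => c a b ≠ i)

/-- The largest number of vertices of a colour-avoiding directed path. -/
noncomputable def longest {N q : ℕ} (T : Tournament N) (c : Colouring N q) : ℕ :=
  sSup {m | ∃ p, IsAvoidingPath T c p ∧ p.length = m}

/-- `f_{q,q-1}(N)`: the minimum over all `q`-edge-colourings of the transitive tournament. -/
noncomputable def f (q N : ℕ) : ℕ := sInf {m | ∃ c : Colouring N q, longest (transitive N) c = m}

/-- `g_{q,q-1}(N)`: the minimum over all `q`-edge-coloured tournaments. -/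
noncomputable def g (q N : ℕ) : ℕ :=
  sInf {m | ∃ (T : Tournament N) (c : Colouring N q), longest T c = m}

/-! ### The example -/

/-- Row `a`, column `b`: `0` if there is no edge from `a` to `b`, otherwise its colour plus one. -/
def table : List (List ℕ) :=
  [[0, 1, 0, 0, 0, 0, 0, 0, 0, 1],
   [0, 0, 3, 0, 0, 0, 0, 0, 0, 3],
   [2, 0, 0, 0, 0, 0, 0, 0, 0, 2],
   [2, 1, 3, 0, 0, 0, 0, 0, 0, 2],
   [4, 4, 4, 4, 0, 3, 0, 3, 0, 2],
   [4, 4, 4, 4, 0, 0, 0, 0, 0, 3],
   [4, 4, 4, 4, 2, 2, 0, 0, 0, 1],
   [4, 4, 4, 4, 0, 1, 1, 0, 0, 3],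
   [4, 1, 1, 1, 2, 3, 1, 3, 0, 2],
   [0, 0, 0, 0, 0, 0, 0, 0, 0, 0]]

/-- the entries of the table -/
def ent (a b : Fin 10) : ℕ := (table.getD a.1 []).getD b.1 0

/-- The example tournament. -/
def Ex : Tournament 10 where
  adj a b := ent a b ≠ 0
  irrefl := by decide
  total := by decide
  asymm := by decide

/-- Its colouring. -/
def exc : Colouring 10 4 := fun a b => Fin.ofNat 4 (ent a b - 1)

/-- the vertices -/
def vs : List (Fin 10) := [0, 1, 2, 3, 4, 5, 6, 7, 8, 9]

lemma mem_vs (a : Fin 10) : a ∈ vs := by revert a; decide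

/-- the edges which do not have colour `i` (Boolean) -/
def R (i : Fin 4) (a b : Fin 10) : Bool := !(ent a b == 0) && !(ent a b == i.1 + 1)

/-- Can a path ending in `v` whose vertices are in `vis` be extended by `k` vertices? -/
def ext (i : Fin 4) : ℕ → Fin 10 → List (Fin 10) → Bool
  | 0, _, _ => true
  | k + 1, v, vis => vs.any fun w => R i v w && (!vis.contains w && ext i k w (w :: vis))

lemma ext_false : ∀ i : Fin 4, ∀ v : Fin 10, ext i 6 v [v] = false := by decide +kernel

lemma R_of {i : Fin 4} {a b : Fin 10} (h1 : Ex.adj a b) (h2 : exc a b ≠ i) : R i a b = true := by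
  revert i a b
  change ∀ {i : Fin 4} {a b : Fin 10}, ent a b ≠ 0 → exc a b ≠ i → R i a b = true
  decide

lemma ext_sound (i : Fin 4) : ∀ (p : List (Fin 10)) (v : Fin 10) (vis : List (Fin 10)),
    (v :: p).IsChain (fun a b => R i a b = true) → p.Nodup → (∀ w ∈ p, w ∉ vis) →
    ext i p.length v vis = true := by
  intro p
  induction p with
  | nil => intros; rfl
  | cons w p ih =>
    intro v vis hc hn hv
    rw [List.isChain_cons_cons] at hc
    rw [List.nodup_cons] at hn
    simp only [List.length_cons, ext, List.any_eq_true, Bool.and_eq_true, Bool.not_eq_true',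
      List.contains_eq_mem, decide_eq_false_iff_not]
    refine ⟨w, mem_vs w, hc.1, hv w (by simp), ih w (w :: vis) hc.2 hn.2 ?_⟩
    intro z hz hz2
    rcases List.mem_cons.mp hz2 with h | h
    · subst h; exact hn.1 hz
    · exact hv z (by simp [hz]) h

lemma chain_and {α : Type} {R S : α → α → Prop} : ∀ {p : List α}, p.IsChain R → p.IsChain S →
    p.IsChain (fun a b => R a b ∧ S a b)
  | [], _, _ => by simp
  | [_], _, _ => by simp
  | a :: b :: p, h1, h2 => by
    rw [List.isChain_cons_cons] at h1 h2 ⊢
    exact ⟨⟨h1.1, h2.1⟩, chain_and h1.2 h2.2⟩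

lemma ex_short {p : List (Fin 10)} (hp : IsAvoidingPath Ex exc p) : p.length ≤ 6 := by
  by_contra hcon
  push Not at hcon
  obtain ⟨hn, hc, i, hi⟩ := hp
  have hR : p.IsChain (fun a b => R i a b = true) :=
    (chain_and hc hi).imp (fun a b h => R_of h.1 h.2)
  match p, hn, hR, hcon with
  | [], _, _, h => simp at h
  | v :: p, hn, hR, h =>
    have hp6 : 6 ≤ p.length := by simpa using h
    have h1 : (v :: p.take 6).IsChain (fun a b => R i a b = true) := by
      have := hR.take 7
      simpa using this
    rw [List.nodup_cons] at hn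
    have h2 : (p.take 6).Nodup := hn.2.sublist (List.take_sublist 6 p)
    have h3 : ∀ w ∈ p.take 6, w ∉ [v] := by
      intro w hw hv
      rw [List.mem_singleton] at hv
      subst hv
      exact hn.1 (List.mem_of_mem_take hw)
    have h4 := ext_sound i _ v [v] h1 h2 h3
    rw [List.length_take, min_eq_left hp6, ext_false i v] at h4
    exact absurd h4 (by simp)

lemma bdd {N q : ℕ} (T : Tournament N) (c : Colouring N q) :
    BddAbove {m | ∃ p, IsAvoidingPath T c p ∧ p.length = m} := by
  refine ⟨N, ?_⟩
  rintro m ⟨p, hp, rfl⟩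
  simpa using hp.1.length_le_card

lemma longest_ex : longest Ex exc ≤ 6 := by
  unfold longest
  apply csSup_le
  · exact ⟨0, [], ⟨List.nodup_nil, by simp, 0, by simp⟩, rfl⟩
  · rintro m ⟨p, hp, rfl⟩
    exact ex_short hp

lemma ex_not_transitive : ¬ Ex.IsTransitive := by
  rintro ⟨σ, hσ⟩
  have h1 : σ 0 < σ 1 := (hσ 0 1).mp (by change ent 0 1 ≠ 0; decide)
  have h2 : σ 1 < σ 2 := (hσ 1 2).mp (by change ent 1 2 ≠ 0; decide)
  have h3 : σ 2 < σ 0 := (hσ 2 0).mp (by change ent 2 0 ≠ 0; decide)
  exact absurd (h1.trans (h2.trans h3)) (lt_irrefl _)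

/-! ### The transitive tournament -/

lemma longest_trans (c : Colouring 10 4) : 7 ≤ longest (transitive 10) c := by
  by_contra hcon
  push Not at hcon
  have hshort : ∀ p, IsAvoidingPath (transitive 10) c p → p.length ≤ 6 := by
    intro p hp
    have := le_csSup (bdd (transitive 10) c) ⟨p, hp, rfl⟩
    unfold longest at hcon
    omega
  set S : Fin 10 → Fin 4 → Set ℕ := fun v i =>
    {m | ∃ l : List (Fin 10), (v :: l).IsChain (fun b a => a < b ∧ c a b ≠ i) ∧
      l.length + 1 = m} with hS
  have hSle : ∀ v i, ∀ m ∈ S v i, m ≤ 6 := by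
    rintro v i m ⟨l, hl, rfl⟩
    have h1 : IsAvoidingPath (transitive 10) c (v :: l).reverse := by
      refine ⟨?_, ?_, i, ?_⟩
      · rw [List.nodup_reverse]
        have h2 : (v :: l).IsChain (fun b a => a < b) := hl.imp (fun _ _ h => h.1)
        have h3 : (v :: l).Pairwise (fun b a => a < b) := List.isChain_iff_pairwise.mp h2
        exact h3.imp (fun {a b} h => ne_of_gt h)
      · rw [List.isChain_reverse]
        exact hl.imp (fun _ _ h => h.1)
      · rw [List.isChain_reverse]
        exact hl.imp (fun _ _ h => h.2)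
    have := hshort _ h1
    simpa using this
  have hSb : ∀ v i, BddAbove (S v i) := fun v i => ⟨6, hSle v i⟩
  have hS1 : ∀ v i, 1 ∈ S v i := fun v i => ⟨[], by simp, rfl⟩
  have hlt : ∀ a b : Fin 10, a < b → ∀ i, i ≠ c a b → sSup (S a i) < sSup (S b i) := by
    intro a b hab i hi
    obtain ⟨l, hl, hlen⟩ := Nat.sSup_mem ⟨1, hS1 a i⟩ (hSb a i)
    have : sSup (S a i) + 1 ∈ S b i :=
      ⟨a :: l, by
        rw [List.isChain_cons_cons]
        exact ⟨⟨hab, hi.symm⟩, hl⟩, by simp [hlen]⟩
    exact le_csSup (hSb b i) this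
  refine Q148.CAPath.no_ten
    (fun v i => if h : v < 10 then sSup (S ⟨v, h⟩ i) else 0) ?_ ?_
  · intro v hv i
    simp only [hv, dif_pos]
    exact ⟨le_csSup (hSb _ i) (hS1 _ i), csSup_le ⟨1, hS1 _ i⟩ (hSle _ i)⟩
  · intro a b hab hb
    have ha : a < 10 := hab.trans hb
    refine ⟨c ⟨a, ha⟩ ⟨b, hb⟩, fun i hi => ?_⟩
    simp only [ha, hb, dif_pos]
    exact hlt _ _ hab i hi

/-- **Q1 of MP_665821_co, answered positively** (with `q = 4` and `N = 10`): there is a
non-transitive `q`-edge-coloured tournament on `N` vertices, `q ≥ 4`, whose longest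
colour-avoiding directed path has strictly fewer than `f_{q,q-1}(N)` vertices; in particular
`g_{q,q-1}(N) < f_{q,q-1}(N)`. -/
theorem result : ∃ (q N : ℕ) (T : Tournament N) (c : Colouring N q), 4 ≤ q ∧
    ¬ T.IsTransitive ∧ longest T c < f q N ∧ g q N < f q N := by
  have h1 : 7 ≤ f 4 10 := by
    unfold f
    apply le_csInf
    · exact ⟨_, fun _ _ => 0, rfl⟩
    · rintro m ⟨c, rfl⟩
      exact longest_trans c
  have h2 := longest_ex
  have h3 : g 4 10 ≤ longest Ex exc := Nat.sInf_le ⟨Ex, exc, rfl⟩
  exact ⟨4, 10, Ex, exc, le_rfl, ex_not_transitive, by omega, by omega⟩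

end Pool.Agent.Results.MP_665821_co.NonTransitiveBetter
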